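import Pool.Agent.Helper45.AM.GoalsD

/-!
# Project AM, packet D7: the leading term argument.
-/

set_option autoImplicit false

open LaurentPolynomial Pool.Agent.Helper15.RA Pool.Agent.Helper45.AM

noncomputable section

namespace Pool.Agent.Helper30.AM

/-! ## The abstract argument -/

section abstract

variable {W H ι : Type} [Ring H] [Algebra ℤ[T;T⁻¹] H]

/-- all coordinates have degree at most `k` -/
def Dg (t : Module.Basis W ℤ[T;T⁻¹] H) (k : ℤ) (Z : H) : Prop := ∀ w, DegLE k (t.repr Z w)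

theorem Dg.add {t : Module.Basis W ℤ[T;T⁻¹] H} {k : ℤ} {Y Z : H} (hY : Dg t k Y) (hZ : Dg t k Z) :
    Dg t k (Y + Z) := fun w => by
  rw [map_add, Finsupp.add_apply]
  exact (hY w).add (hZ w)

theorem Dg.mono {t : Module.Basis W ℤ[T;T⁻¹] H} {k l : ℤ} {Y : H} (hY : Dg t k Y) (h : k ≤ l) :
    Dg t l Y := fun w => (hY w).mono h

theorem Dg.smul {t : Module.Basis W ℤ[T;T⁻¹] H} {k l : ℤ} {Y : H} {p : ℤ[T;T⁻¹]} (hp : DegLE l p)
    (hY : Dg t k Y) : Dg t (l + k) (p • Y) := fun w => by
  rw [map_smul, Finsupp.smul_apply, smul_eq_mul]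
  exact hp.mul (hY w)

theorem Dg.zero (t : Module.Basis W ℤ[T;T⁻¹] H) (k : ℤ) : Dg t k 0 := fun w => by
  rw [map_zero, Finsupp.zero_apply]
  exact DegLE.zero k

theorem Dg.sum {t : Module.Basis W ℤ[T;T⁻¹] H} {k : ℤ} {κ : Type*} {s : Finset κ} {f : κ → H}
    (h : ∀ i ∈ s, Dg t k (f i)) : Dg t k (∑ i ∈ s, f i) := by
  classical
  induction s using Finset.induction_on with
  | empty => exact Dg.zero t k
  | insert i s hi ih =>
    rw [Finset.sum_insert hi]
    exact (h i (Finset.mem_insert_self i s)).add (ih fun j hj => h j (Finset.mem_insert_of_mem hj))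

theorem bound_finset (s : Finset ι) (β : ι → ℤ[T;T⁻¹]) (k : ℤ) :
    ∃ j : ℕ, ∀ i ∈ s, DegLE (k + j) (β i) := by
  classical
  induction s using Finset.induction_on with
  | empty => exact ⟨0, fun i hi => absurd hi (Finset.notMem_empty i)⟩
  | insert i s hi ih =>
    obtain ⟨j, hj⟩ := ih
    obtain ⟨l, hl⟩ := exists_degLE (β i)
    refine ⟨max j (l - k).toNat, fun a ha => ?_⟩
    rcases Finset.mem_insert.1 ha with h | h
    · rw [h]
      exact hl.mono (by omega)
    · exact (hj a h).mono (by omega)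

variable (t : Module.Basis W ℤ[T;T⁻¹] H) (B : ι → H) (pd : ι → W) (nn : ι → ℕ) (sl : W → ℕ)
  (G : W → Prop) (C : ℕ)

/-- The leading term argument: the claim. -/
theorem claim (h1 : ∀ i, G (pd i)) (h2 : ∀ i, sl (pd i) = nn i) (h3 : ∀ i, t.repr (B i) (pd i) = 1)
    (h4 : ∀ i u, u ≠ pd i → sl u = nn i → DegLE (-1) (t.repr (B i) u))
    (h5 : ∀ i u, t.repr (B i) u ≠ 0 → sl u ≤ nn i) (h6 : ∀ i j, pd i = pd j → i = j)
    (h7 : ∀ i, Dg t C (B i)) (m : ℕ) :
    ∀ (k : ℤ) (s : Finset ι) (β : ι → ℤ[T;T⁻¹]) (Z : H), (∀ w, G w → t.repr Z w = 0) →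
      (∀ i ∈ s, nn i < m) → Dg t k (Z - ∑ i ∈ s, β i • B i) → Dg t (k + m * C) Z := by
  classical
  induction m with
  | zero =>
    intro k s β Z hZ hs hd
    have : s = ∅ := Finset.eq_empty_of_forall_notMem fun i hi => absurd (hs i hi) (Nat.not_lt_zero _)
    rw [this, Finset.sum_empty, sub_zero] at hd
    simpa using hd
  | succ m ih =>
    intro k s β Z hZ hs hd
    -- the degrees of the leading coefficients
    have key : ∀ j : ℕ, (∀ i ∈ s.filter (fun i => nn i = m), DegLE (k + j) (β i)) →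
        ∀ i ∈ s.filter (fun i => nn i = m), DegLE k (β i) := by
      intro j
      induction j with
      | zero => exact fun h i hi => (h i hi).mono (by simp)
      | succ j ihj =>
        intro h
        refine ihj fun i hi => ?_
        have his := (Finset.mem_filter.1 hi).1
        have him := (Finset.mem_filter.1 hi).2
        have e1 := hd (pd i)
        rw [map_sub, Finsupp.sub_apply, hZ _ (h1 i), map_sum, Finsupp.finsetSum_apply,
          ← Finset.add_sum_erase s _ his, map_smul, Finsupp.smul_apply, h3, smul_eq_mul, mul_one]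
          at e1
        have e2 : DegLE (k + j) (∑ x ∈ s.erase i, t.repr (β x • B x) (pd i)) := by
          refine DegLE.sum fun x hx => ?_
          rw [map_smul, Finsupp.smul_apply, smul_eq_mul]
          have hxs := Finset.mem_of_mem_erase hx
          have hxi := Finset.ne_of_mem_erase hx
          by_cases hxm : nn x = m
          · refine (h x (Finset.mem_filter.2 ⟨hxs, hxm⟩)).mul_le (h4 x (pd i) ?_ ?_) ?_
            · exact fun h => hxi (h6 _ _ h.symm)
            · rw [h2, him, hxm]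
            · push_cast
              omega
          · have hxz : t.repr (B x) (pd i) = 0 := by
              by_contra hne
              have := h5 x _ hne
              rw [h2, him] at this
              have := hs x hxs
              omega
            rw [hxz, mul_zero]
            exact DegLE.zero _
        have e3 : β i = -(0 - (β i + ∑ x ∈ s.erase i, t.repr (β x • B x) (pd i)))
            - ∑ x ∈ s.erase i, t.repr (β x • B x) (pd i) := by ring
        rw [e3]
        exact (e1.neg.mono (by omega)).sub e2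
    obtain ⟨j, hj⟩ := bound_finset (s.filter fun i => nn i = m) β k
    have hk := key j hj
    have e4 : ∑ i ∈ s, β i • B i = ∑ i ∈ s.filter (fun i => nn i = m), β i • B i +
        ∑ i ∈ s.filter (fun i => ¬ nn i = m), β i • B i :=
      (Finset.sum_filter_add_sum_filter_not s (fun i => nn i = m) _).symm
    have e5 := ih (k + C) (s.filter fun i => ¬ nn i = m) β Z hZ (fun i hi => by
      have := hs i (Finset.mem_filter.1 hi).1
      have := (Finset.mem_filter.1 hi).2
      omega) (by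
      have e6 : Z - ∑ i ∈ s.filter (fun i => ¬ nn i = m), β i • B i =
          (Z - ∑ i ∈ s, β i • B i) + ∑ i ∈ s.filter (fun i => nn i = m), β i • B i := by
        rw [e4]
        abel
      rw [e6]
      refine (hd.mono (by omega)).add (Dg.sum fun i hi => ?_)
      exact (h7 i).smul (hk i hi))
    exact e5.mono (by push_cast; linarith)

end abstract

/-! ## Degrees of `T_x c_g T_y` -/

section deg

variable {S W H : Type} [Group W] [Ring H] [Algebra ℤ[T;T⁻¹] H] {M : CoxeterMatrix S}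
  {cs : CoxeterSystem M W} {L : W → ℕ}

theorem dg_mul_right (D : Hecke cs L H) (N : ℕ) (hN : ∀ x y z, DegLE N (D.t.repr (D.t x * D.t y) z))
    {k : ℤ} {Z : H} (hZ : Dg D.t k Z) (y : W) : Dg D.t (k + N) (Z * D.t y) := by
  have : Z * D.t y = ∑ x ∈ (D.t.repr Z).support, D.t.repr Z x • (D.t x * D.t y) := by
    conv_lhs => rw [← D.t.linearCombination_repr Z, Finsupp.linearCombination_apply, Finsupp.sum,
      Finset.sum_mul]
    exact Finset.sum_congr rfl fun x _ => by rw [smul_mul_assoc]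
  rw [this]
  exact Dg.sum fun x _ => Dg.smul (hZ x) (hN x y)

theorem dg_mul_left (D : Hecke cs L H) (N : ℕ) (hN : ∀ x y z, DegLE N (D.t.repr (D.t x * D.t y) z))
    {k : ℤ} {Z : H} (hZ : Dg D.t k Z) (y : W) : Dg D.t (k + N) (D.t y * Z) := by
  have : D.t y * Z = ∑ x ∈ (D.t.repr Z).support, D.t.repr Z x • (D.t y * D.t x) := by
    conv_lhs => rw [← D.t.linearCombination_repr Z, Finsupp.linearCombination_apply, Finsupp.sum,
      Finset.mul_sum]
    exact Finset.sum_congr rfl fun x _ => by rw [mul_smul_comm]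
  rw [this]
  exact Dg.sum fun x _ => Dg.smul (hZ x) (hN y x)

theorem dg_c (D : Hecke cs L H) (g : W) : Dg D.t 0 (D.c g) := by
  classical
  intro w
  have h1 := D.c_sub g w
  have h2 : D.t.repr (D.c g) w = D.t.repr (D.c g - D.t g) w + D.t.repr (D.t g) w := by
    rw [map_sub, Finsupp.sub_apply]
    ring
  rw [h2, D.t.repr_self, Finsupp.single_apply]
  refine (h1.mono (by decide)).add ?_
  split_ifs
  · exact DegLE.one le_rfl
  · exact DegLE.zero 0

end deg

section main

variable {S W H : Type} [Group W] [Ring H] [Algebra ℤ[T;T⁻¹] H] (X : AC S W H)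

theorem dg_B (N : ℕ) (hN : ∀ x y z, DegLE N (X.D.t.repr (X.D.t x * X.D.t y) z)) (x g y : W) :
    Dg X.D.t ((2 * N : ℕ) : ℤ) (X.B x g y) := by
  have := dg_mul_right X.D N hN (dg_mul_left X.D N hN (dg_c X.D g) x) y
  exact this.mono (by push_cast; omega)

theorem ap_zero (M n : ℕ) : X.Ap M n 0 := fun r => ⟨0, Submodule.zero_mem _, fun w => by
  rw [sub_zero, map_zero, Finsupp.zero_apply]
  exact DegLE.zero _⟩

theorem ap_add {M n : ℕ} {Y Z : H} (hY : X.Ap M n Y) (hZ : X.Ap M n Z) : X.Ap M n (Y + Z) := by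
  intro r
  obtain ⟨y, h1, h2⟩ := hY r
  obtain ⟨z, h3, h4⟩ := hZ r
  refine ⟨y + z, add_mem h1 h3, fun w => ?_⟩
  rw [add_sub_add_comm, map_add, Finsupp.add_apply]
  exact (h2 w).add (h4 w)

theorem ap_smul {M n : ℕ} {Y : H} (p : ℤ[T;T⁻¹]) (hY : X.Ap M n Y) : X.Ap M n (p • Y) := by
  intro r
  obtain ⟨k, hk⟩ := exists_degLE p
  obtain ⟨y, h1, h2⟩ := hY (r + k.toNat)
  refine ⟨p • y, Submodule.smul_mem _ _ h1, fun w => ?_⟩
  rw [← smul_sub, map_smul, Finsupp.smul_apply, smul_eq_mul]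
  exact hk.mul_le (h2 w) (by push_cast; omega)

theorem h_d_7 (h4 : D_4) : D_7 := by
  classical
  intro S W H _ _ _ X M n hB hap Z hZ hG
  obtain ⟨N, hN⟩ := hB
  obtain ⟨d1, d2⟩ := h4 S W H X M
  have hA : X.Ap M n Z := by
    unfold AC.Idl at hZ
    refine Submodule.span_induction (p := fun Z _ => X.Ap M n Z) ?_ (ap_zero X M n)
      (fun _ _ _ _ h1 h2 => ap_add X h1 h2) (fun p _ _ h => ap_smul X p h) hZ
    rintro _ ⟨x, g, y, e1, e2, e3, rfl⟩
    exact hap x g y e1 e2 e3
  have key : ∀ r : ℕ, Dg X.D.t (-(r : ℤ) + (n + 1 : ℕ) * (2 * N : ℕ)) Z := by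
    intro r
    obtain ⟨Y, hY, hd⟩ := hA r
    -- the index type of the chosen triples with at most `n` syllables
    let ι : Type := {q : W × W × W // X.Ch M q.1 q.2.1 q.2.2 ∧ X.nn q.1 q.2.1 q.2.2 ≤ n}
    have hset : {Z | ∃ x g y, X.Ch M x g y ∧ X.nn x g y ≤ n ∧ Z = X.B x g y} =
        Set.range fun q : ι => X.B q.1.1 q.1.2.1 q.1.2.2 := by
      ext z
      constructor
      · rintro ⟨x, g, y, e1, e2, rfl⟩
        exact ⟨⟨(x, g, y), e1, e2⟩, rfl⟩
      · rintro ⟨⟨⟨x, g, y⟩, e1, e2⟩, rfl⟩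
        exact ⟨x, g, y, e1, e2, rfl⟩
    rw [hset, Finsupp.mem_span_range_iff_exists_finsupp] at hY
    obtain ⟨β, rfl⟩ := hY
    refine claim X.D.t (fun q : ι => X.B q.1.1 q.1.2.1 q.1.2.2)
      (fun q : ι => q.1.1 * q.1.2.1 * q.1.2.2) (fun q : ι => X.nn q.1.1 q.1.2.1 q.1.2.2) X.sl
      (X.Ge (M + 1)) (2 * N) ?_ ?_ ?_ ?_ ?_ ?_ ?_ (n + 1) (-(r : ℤ)) β.support β Z ?_ ?_ ?_
    · exact fun i => (d1 _ _ _ i.2.1).2.1
    · exact fun i => (d1 _ _ _ i.2.1).2.2.1
    · exact fun i => (d1 _ _ _ i.2.1).2.2.2.1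
    · exact fun i => (d1 _ _ _ i.2.1).2.2.2.2.1
    · exact fun i => (d1 _ _ _ i.2.1).2.2.2.2.2
    · intro i j hij
      obtain ⟨e1, e2, e3⟩ := d2 _ _ _ _ _ _ i.2.1 j.2.1 hij
      exact Subtype.ext (Prod.ext e1 (Prod.ext e2 e3))
    · exact fun i => dg_B X N hN _ _ _
    · intro w hw
      by_contra hne
      exact hG w hne hw
    · exact fun i _ => Nat.lt_succ_of_le i.2.2
    · exact hd
  have h0 : X.D.t.repr Z = 0 := by
    ext1 w
    rw [Finsupp.zero_apply]
    refine eq_zero_of_degLE fun k => ?_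
    refine (key ((n + 1) * (2 * N) + (-k).toNat) w).mono ?_
    push_cast
    omega
  exact (X.D.t.repr.map_eq_zero_iff).1 h0

end main

end Pool.Agent.Helper30.AM
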